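import Pool.Agent.Helper4.SQ.GoalsR2

/-!
Project SQ (MP_bb32d1_al), stage B, part Q: packet OPT.
-/

set_option autoImplicit false
set_option linter.unusedSectionVars false

namespace Pool.Agent.Helper31.SQ

noncomputable section

open Matrix Pool.Agent.Helper19.SQ Pool.Agent.Helper34.SQ Pool.Agent.Helper41.SQ
open Pool.Agent.Helper4.SQ

variable {A : Type} [Ring A] [Algebra ℂ A] {ι : Type} [Fintype ι] [DecidableEq ι]

/-- homogeneous matrices -/
def Hom (C : Core0 A ι) (M : Matrix ι ι A) : Prop :=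
  ∀ i j, C.φ (M i j) = ((C.θ i : ℂ)⁻¹ * (C.θ j : ℂ)) • M i j

theorem Hom.add {C : Core0 A ι} {M N : Matrix ι ι A} (hM : Hom C M) (hN : Hom C N) :
    Hom C (M + N) := by
  intro i j
  rw [Matrix.add_apply, map_add, hM, hN, smul_add]

theorem Hom.mul {C : Core0 A ι} {M N : Matrix ι ι A} (hM : Hom C M) (hN : Hom C N) :
    Hom C (M * N) := by
  intro i j
  rw [Matrix.mul_apply, map_sum, Finset.smul_sum]
  refine Finset.sum_congr rfl fun k _ => ?_
  rw [map_mul, hM, hN, smul_mul_smul_comm]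
  congr 1
  have hk : (C.θ k : ℂ) ≠ 0 := (C.θ k).ne_zero
  field_simp

theorem Hom.one (C : Core0 A ι) : Hom C (1 : Matrix ι ι A) := by
  intro i j
  rw [Matrix.one_apply]
  split_ifs with h
  · subst h
    have hk : (C.θ i : ℂ) ≠ 0 := (C.θ i).ne_zero
    rw [map_one, inv_mul_cancel₀ hk, one_smul]
  · rw [map_zero, smul_zero]

theorem Hom.smul {C : Core0 A ι} {M : Matrix ι ι A} (hM : Hom C M) (c : ℂ) : Hom C (c • M) := by
  intro i j
  rw [Matrix.smul_apply, map_smul, hM, smul_comm]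

theorem Hom.pow {C : Core0 A ι} {M : Matrix ι ι A} (hM : Hom C M) (n : ℕ) : Hom C (M ^ n) := by
  induction n with
  | zero => rw [pow_zero]; exact Hom.one C
  | succ n ih => rw [pow_succ]; exact ih.mul hM

theorem hom_pev (C : Core0 A ι) (g : Polynomial ℂ) : Hom C (pev g C.X) := by
  unfold pev
  induction g using Polynomial.induction_on' with
  | add p q hp hq => rw [map_add]; exact hp.add hq
  | monomial n a =>
    rw [Polynomial.aeval_monomial, ← Algebra.smul_def]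
    exact (Hom.pow (fun i j => C.φX i j) n).smul a

/-- invariance of traces of products -/
theorem trace_inv (φ : A ≃ₐ[ℂ] A) (c : ι → ι → ℂ) (D D' P : Matrix ι ι A)
    (hD : ∀ i j, D' i j = c i j • φ (D i j)) (hP : ∀ i j, φ (P j i) = c i j • P j i) :
    Matrix.trace (D' * P) = φ (Matrix.trace (D * P)) := by
  simp only [Matrix.trace, Matrix.diag_apply, Matrix.mul_apply, map_sum, map_mul]
  refine Finset.sum_congr rfl fun i _ => Finset.sum_congr rfl fun j _ => ?_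
  rw [hD, hP, smul_mul_assoc, mul_smul_comm]

theorem hom_vv (C : Core0 A ι) {Z : Matrix ι ι A} (hZ : Hom C Z) (i j : ι) :
    C.φ (vv C.ε Z j i) = ((C.θ i : ℂ)⁻¹ * (C.θ j : ℂ)) • vv C.ε Z j i := by
  rw [vv_apply, map_sum, Finset.smul_sum]
  refine Finset.sum_congr rfl fun p _ => ?_
  have h1 := C.φε (Z p j) p i
  rw [hZ p j, map_smul, Matrix.smul_apply] at h1
  have hp : (C.θ p : ℂ) ≠ 0 := (C.θ p).ne_zero
  have hi : (C.θ i : ℂ) ≠ 0 := (C.θ i).ne_zero
  have h2 : C.φ (C.ε (Z p j) p i) =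
      (((C.θ p : ℂ)⁻¹ * (C.θ i : ℂ))⁻¹) • (((C.θ p : ℂ)⁻¹ * (C.θ j : ℂ)) • C.ε (Z p j) p i) := by
    rw [h1, smul_smul, inv_mul_cancel₀ (mul_ne_zero (inv_ne_zero hp) hi), one_smul]
  rw [h2, smul_smul]
  congr 1
  field_simp

/-- trace property of `x ↦ τ (tr (H x * P))`, `P` commuting with `H`. -/
theorem trace_sym {τ : A →ₗ[ℂ] ℂ} (hτ : ∀ x y, τ (x * y) = τ (y * x))
    (H : A →ₐ[ℂ] Matrix ι ι A) (P : Matrix ι ι A) (hP : ∀ a, P * H a = H a * P) (x y : A) :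
    τ (Matrix.trace (H (x * y) * P)) = τ (Matrix.trace (H (y * x) * P)) := by
  rw [map_mul, map_mul, mul_assoc, trace_comm_of_tr hτ, mul_assoc, hP, ← mul_assoc]

/-- **Packet OPT.** -/
theorem sOPT (hDPV : S_DPV) (hDP2 : S_DP2) : S_OPT := by
  intro A _ _ ι _ _ C
  refine ⟨fun g τ hτ => ?_, fun g τ hτ => ?_, fun z hz hzφ τ hτ => ?_⟩
  · rw [mem_Tinv] at hτ ⊢
    obtain ⟨h1, h2⟩ := hτ
    refine ⟨fun x y => ?_, fun x => ?_⟩
    · rw [FO_apply, FO_apply]
      exact trace_sym h1 C.δ _ (fun a => pev_comm (C.Xδ a) g) x y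
    · rw [FO_apply, FO_apply]
      rw [trace_inv C.φ (fun i j => (C.θ i : ℂ) * (C.θ j : ℂ)⁻¹) (C.δ x) (C.δ (C.φ x)) _
        (fun i j => C.φδ x i j) (fun i j => by rw [hom_pev C g j i, mul_comm]), h2]
  · rw [mem_Tinv] at hτ ⊢
    obtain ⟨h1, h2⟩ := hτ
    refine ⟨fun x y => ?_, fun x => ?_⟩
    · rw [EO_apply, EO_apply]
      exact trace_sym h1 C.ε _ (fun a => (hDPV A ι C.δ C.ε (hDP2 A ι C).1).1 (pev g C.X)
        (fun a => pev_comm (C.Xδ a) g) a) x y
    · rw [EO_apply, EO_apply]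
      rw [trace_inv C.φ (fun i j => (C.θ i : ℂ)⁻¹ * (C.θ j : ℂ)) (C.ε x) (C.ε (C.φ x)) _
        (fun i j => C.φε x i j) (hom_vv C (hom_pev C g)), h2]
  · rw [mem_Tinv] at hτ ⊢
    obtain ⟨h1, h2⟩ := hτ
    refine ⟨fun x y => ?_, fun x => ?_⟩
    · rw [MO_apply, MO_apply, ← mul_assoc, h1, ← mul_assoc, ← hz, mul_assoc]
    · have e : C.φ (z * x) = z * C.φ x := by rw [map_mul, hzφ]
      rw [MO_apply, MO_apply, ← h2 (z * x), e]

end

end Pool.Agent.Helper31.SQ
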