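import Pool.Agent.Helper39.SQ.Goals

/-! # Packet SQ-QONE -/

namespace Pool.Agent.Helper31.SQ.QONE

open Pool.Agent.Helper71.SN Pool.Agent.Helper39.Net Pool.Agent.Helper39.SQ

theorem dOne_eq {d : ℕ} (z z' : Pt d) (h : ∀ c, z c ≤ z' c) :
    dOne (qOne z) (qOne z') = ∑ c, ((z' c : ℝ) - z c) := by
  unfold dOne qOne
  refine Finset.sum_congr rfl fun c _ => ?_
  have : (z c : ℝ) ≤ z' c := by exact_mod_cast h c
  rw [abs_sub_comm, abs_of_nonneg (by linarith)]

theorem thm : Pool.Agent.Helper39.SQ.G_QONE := by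
  intro d B x y x' y' hx hy
  have hle : ∀ z z' : Pt d, (z = z' ∨ ∀ c, z c < z' c) → ∀ c, z c ≤ z' c := by
    intro z z' h c
    rcases h with h | h
    · rw [h]
    · exact (h c).le
  constructor
  · intro h
    rw [dOne_eq x y (hle x y h)]
    have : ∑ c, ((y c : ℝ) - x c) ≤ ∑ _c : Fin d, (B : ℝ) := by
      refine Finset.sum_le_sum fun c _ => ?_
      have h1 : (y c : ℝ) ≤ B := by exact_mod_cast (hy c).le
      have h2 : (0 : ℝ) ≤ x c := Nat.cast_nonneg _
      linarith
    simpa using this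
  · intro h h'
    rw [dOne_eq x y (hle x y h), dOne_eq x' y' (hle x' y' h')]
    have hex : (exc x y' : ℝ) = ∑ c, (if y' c < x c then (1 : ℝ) else 0) := by
      unfold exc
      rw [Finset.sum_boole]
    rw [hex]
    unfold dOne qOne
    rw [← Finset.sum_add_distrib, ← Finset.sum_add_distrib, ← Finset.sum_add_distrib]
    refine Finset.sum_le_sum fun c _ => ?_
    have h3 : (x' c : ℝ) ≤ y' c := by exact_mod_cast hle x' y' h' c
    have h4 : (x c : ℝ) ≤ y c := by exact_mod_cast hle x y h c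
    have a1 : (x' c : ℝ) - y c ≤ |(x' c : ℝ) - y c| := le_abs_self _
    have a2 : -((x' c : ℝ) - y c) ≤ |(x' c : ℝ) - y c| := neg_le_abs _
    have a3 : (x c : ℝ) - y' c ≤ |(x c : ℝ) - y' c| := le_abs_self _
    have a4 : -((x c : ℝ) - y' c) ≤ |(x c : ℝ) - y' c| := neg_le_abs _
    split_ifs with hlt
    · have h5 : (y' c : ℝ) + 1 ≤ x c := by exact_mod_cast hlt
      linarith
    · linarith

end Pool.Agent.Helper31.SQ.QONE
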